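import Pool.Agent.Helper53K9.AB.Main

/-!
MP_c7af3c_ag, Q1: abelian covers of projective varieties whose branch divisors are generic, and in
general reducible, have both properties of the question.

Let `K` be an algebraically closed field of characteristic `0`, and let `k` be a field contained in
`K`, with algebraic closure `k'` in `K`. Let `V` be a closed subset of projective space, defined
over `k'`, of dimension at most `m`, and let `F_a`, `a ∈ A`, be finitely many forms of degrees `d_a`,
generic over `k`: the ratios of the coefficients of each form `F_a` to one of them are, for all forms
together, algebraically independent over `k`. Let `C` be a subset of `A`, and let `X` be given by the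
equations of `V`, by `F_a (x) = 0` for `a` in `C`, and by finitely many equations
`z_j ^ q_j = ∏_a F_a (x) ^ ε_(j a)`, `j ∈ J`, where `q_j` is at least one and divides the degree
of the product, so that `X` is a closed subset of the weighted projective space with coordinates
`x_i` of weight one and `z_j` of weight `(∑_a ε_(j a) d_a) / q_j`. This is a fibre product of cyclic
covers with the branch divisors `∑_a ε_(j a) (F_a = 0)`, and up to normalisation it contains all
abelian covers of the intersection of `V` with the hypersurfaces `F_a = 0`, `a ∈ C`, that are given by
roots of products of the `F_a`. The map from `X` to the projective space is finite, so the points of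
`X` have representatives with `x_l = 1` for some `l`.

For a set `C'` that contains `C`, let `Br (C')` be the set of the `a` not in `C'` such that `q_j`
does not divide `ε_(j a)` for some `j` with `ε_(j b) = 0` for all `b` in `C'`: these are the branch
divisors of the part of `X` over the intersection of the hypersurfaces `F_b = 0`, `b ∈ C'`. Suppose
that for all sets `C'` that contain `C` and have less than `m` elements
`2 ∑_{b ∈ C'} (d_b + 1) + ∑_{a ∈ Br (C')} d_a ≥ 4 m + c`. Then:

* if `c ≥ 3`, then `X` has only finitely many points over each field generated by finitely many
  elements of `K`, and even over each field generated over `k'` by finitely many elements of `K` (so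
  `X` and its closed subvarieties are arithmetically hyperbolic);
* for each nonconstant morphism `f` from a smooth projective curve of genus `g` over `K` to `X`,
  `c deg f ≤ 2 (2 g - 2)` (so, if `c ≥ 1`, `X` and its closed subvarieties are algebraically
  hyperbolic, hence groupless).

For example, for `z ^ q = F_1 ⋯ F_r`, `q ≥ 2`, the condition is that the product has degree at least
`4 m + c` and, if `m ≥ 2`, each factor has degree at least `2 m - 1 + c / 2`.

The curve is given by its function field `L`, and the morphism by its weighted homogeneous
coordinates `x`, `z`; it is constant if the ratios of the `x_i` are constants. For a point `P` of the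
curve (a normalised discrete valuation of `L`, trivial on `K`), `pord P x` is the minimum of the
orders at `P` of the nonzero coordinates `x_i`; `pht K x` is minus the sum of these numbers, the
degree of the composition of `f` with the finite map to the projective space. The number
`canDeg K L` is `2 g - 2`: it is minus the sum over the points `P` of the orders of `δ (t_P)`, where
`t_P` is a uniformizer at `P`, for any nonzero derivation `δ` of `L` over `K`.

In the fibre products of cyclic covers in `GenericCyclicCovers.lean` each equation has one form on
the right hand side, so that all multiplicities of `F_a (x)` are multiples of `q_a`, and the zeros of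
different forms can be counted separately. Here simple zeros of several forms can meet, and the
proof counts the points where any of the forms vanishes once, for all forms together.
-/

set_option autoImplicit false

namespace Pool.Agent.Results.MP_c7af3c_ag.AbelianCovers

open MvPolynomial FF Pool.Agent.W603.LV Pool.Agent.W603.PV Pool.Agent.TH145.MG
  Pool.Agent.Helper53K9.AB

theorem result {k K : Type} [Field k] [Field K] [IsAlgClosed K] [CharZero K] [Algebra k K]
    {n m : ℕ}
    -- a closed subset of projective space, of dimension at most `m`
    (V : Set (MvPolynomial (Fin (n + 1)) (algebraicClosure k K)))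
    (hVh : ∀ f ∈ V, ∃ e, f.IsHomogeneous e) (hV : DimLE (algebraicClosure k K) V m)
    -- the degrees of the forms, and the exponents in the equations of the cover
    {A J : Type} [Fintype A] [Fintype J] (C : Finset A) (d : A → ℕ) (ε : J → A → ℕ) (q : J → ℕ)
    (hq : ∀ j, 1 ≤ q j ∧ q j ∣ ∑ a, ε j a * d a)
    -- the numerical condition, for the intersections of the hypersurfaces `F b = 0`, `b ∈ C'`
    (c : ℕ) (hd : ∀ C' : Finset A, C ⊆ C' → C'.card < m →
      4 * m + c ≤ 2 * ∑ b ∈ C', (d b + 1) + branchDeg d ε q C')
    -- the forms
    (F : A → MvPolynomial (Fin (n + 1)) K) (hF : ∀ a, (F a).IsHomogeneous (d a))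
    -- the ratios of the coefficients of the forms are algebraically independent over `k`
    (I0 : A → Fin (n + 1) →₀ ℕ) (h0 : ∀ a, (F a).coeff (I0 a) ≠ 0)
    (hgen : AlgebraicIndependent k
      fun p : (a : A) × {I : Fin (n + 1) →₀ ℕ // I.degree = d a ∧ I ≠ I0 a} =>
        (F p.1).coeff p.2.1 / (F p.1).coeff (I0 p.1)) :
    -- the points over the fields generated by finite sets over the algebraic closure of `k`
    (3 ≤ c → ∀ (T : Finset K) (l : Fin (n + 1)), {p : (Fin (n + 1) → K) × (J → K) | p.1 l = 1 ∧
      (∀ i, p.1 i ∈ IntermediateField.adjoin (algebraicClosure k K) (T : Set K)) ∧
      (∀ j, p.2 j ∈ IntermediateField.adjoin (algebraicClosure k K) (T : Set K)) ∧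
      OnAbelianCover (map (algebraMap (algebraicClosure k K) K) '' V) F ε q C
        p.1 p.2}.Finite) ∧
    -- the curves
    ∀ (L : Type) [Field L] [Algebra K L] [IsFF K L] (x : Fin (n + 1) → L) (z : J → L),
      (∃ i j, x j ≠ 0 ∧ x i / x j ∉ Set.range (algebraMap K L)) →
      OnAbelianCover (map (algebraMap (algebraicClosure k K) K) '' V) F ε q C x z →
      (∀ δ : Derivation K L L, δ ≠ 0 → canDeg K L = - ∑ᶠ P : Place K L, P.ord (δ P.surj.choose)) ∧
      c * pht K x ≤ 2 * canDeg K L := by
  choose s hs using fun j => (hq j).2
  have hq' : ∀ j, 1 ≤ q j ∧ ∑ a, ε j a * d a = q j * s j := fun j => ⟨(hq j).1, hs j⟩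
  refine ⟨fun hc T l => ?_, fun L _ _ _ x z hx h => ⟨fun δ hδ => canDeg_eq hδ, ?_⟩⟩
  · refine fin_cover2 (m := m) C hq' (fun C' h1 h2 => ?_) V hV F hF I0 h0 hgen T l
    have h3 := hd C' h1 h2
    unfold branchDeg at h3
    omega
  · exact curve_cover2 (m := m) C hq' hd V hVh hV F hF I0 h0 hgen x z hx h

end Pool.Agent.Results.MP_c7af3c_ag.AbelianCovers
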