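import Pool.Agent.Helper53K9.BD.Pts
import Pool.Agent.Helper53K9.BD.Crv

/-!
MP_c7af3c_ag, Q1: algebraic points of bounded degree on generic complete intersections in an
arbitrary projective variety; their symmetric powers have both properties of the question.

Let `K` be an algebraically closed field of characteristic `0`, and let `k` be a field contained in
`K`, with algebraic closure `k'` in `K`. Let `V` be a closed subset of projective space, defined
over `k'`, of dimension at most `m`, and let `F_a` be finitely many forms of degrees `d_a`, generic
over `k`: the ratios of the coefficients of each form `F_a` to one of them are, for all forms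
together, algebraically independent over `k`. Let `X` be the intersection of `V` with the
hypersurfaces `F_a = 0`, and let `ν` and `c` be natural numbers with
`∑ (d_a + 1) + 2 ≥ 2 m + 2 ν + c`. Then:

* if `c ≥ 2`, then for each field `E` generated by finitely many elements of `K`, and even for
  each field `E` generated over `k'` by finitely many elements of `K`, there are only finitely many
  points of `X` over `K` of degree at most `ν` over `E`, i.e. with coordinates in some extension
  of `E` in `K` of degree at most `ν`. (The points over `E` of the symmetric power of order `ν` of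
  `X` are the effective zero cycles of degree `ν` on `X` over `E`, sums of closed points of degree at
  most `ν`, so the symmetric power of `X` and its closed subvarieties are arithmetically hyperbolic.)
* for each smooth projective curve `B` of genus `g` over `K`, each smooth projective curve `B'` with
  a finite morphism to `B` of degree `[B' : B] ≤ ν`, and each nonconstant morphism `f` from `B'` to
  `X`, `c deg f ≤ [B' : B] (2 g - 2)`. (A morphism from `B` to the symmetric power of `X` is given by
  finitely many such pairs with sum of the degrees `ν`, so, if `c ≥ 1`, the symmetric power of `X` and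
  its closed subvarieties are algebraically hyperbolic, hence groupless. Note that this bound does
  not contain the genus of `B'`, nor the ramification of `B'` over `B`.)

The curves are given by their function fields `L`, `M`, and the morphism by its homogeneous
coordinates `x`. For a point `P` of `B'` (a normalised discrete valuation of `M`, trivial on `K`),
`pord P x` is the minimum of the orders at `P` of the nonzero coordinates; `pht K x` is minus the sum
of these numbers, the degree of `f`. The number `canDeg K L` is `2 g - 2`: it is minus the sum over
the points `P` of the orders of `δ (t_P)`, where `t_P` is a uniformizer at `P`, for any nonzero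
derivation `δ` of `L` over `K`.

The case `ν = 1` is `GenericIntersections.lean`. For larger `ν` the point is the control of the
ramification: at each place a derivation dual to the coefficients of the forms is the sum of a
derivation that preserves the local ring and of a multiple of the derivation with respect to a
uniformizer of the field below, so that in the determinant that gives the inequality of heights the
ramification enters only once, through the poles of one vector of derivatives; and these are bounded
by `2 ν - 2` times the height, by the discriminant of a primitive element which is adapted to them.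
-/

set_option autoImplicit false

namespace Pool.Agent.Results.MP_c7af3c_ag.BoundedDegreePoints

open MvPolynomial FF Pool.Agent.W603.LV Pool.Agent.W603.PV Pool.Agent.TH145.MG
  LinearAlgebra.Projectivization Pool.Agent.Helper53K9.BD

theorem result {k K : Type} [Field k] [Field K] [IsAlgClosed K] [CharZero K] [Algebra k K]
    {n m : ℕ}
    -- a closed subset of projective space, of dimension at most `m`
    (V : Set (MvPolynomial (Fin (n + 1)) (algebraicClosure k K)))
    (hVh : ∀ f ∈ V, ∃ e, f.IsHomogeneous e) (hV : DimLE (algebraicClosure k K) V m)
    -- forms of degrees `d a`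
    {A : Type} [Fintype A] (d : A → ℕ)
    (F : A → MvPolynomial (Fin (n + 1)) K) (hF : ∀ a, (F a).IsHomogeneous (d a))
    -- the ratios of the coefficients of the forms are algebraically independent over `k`
    (I0 : A → Fin (n + 1) →₀ ℕ) (h0 : ∀ a, (F a).coeff (I0 a) ≠ 0)
    (hgen : AlgebraicIndependent k
      fun p : (a : A) × {I : Fin (n + 1) →₀ ℕ // I.degree = d a ∧ I ≠ I0 a} =>
        (F p.1).coeff p.2.1 / (F p.1).coeff (I0 p.1))
    -- the bound for the degree of the points, and the numerical condition
    (ν c : ℕ) (hd : 2 * m + 2 * ν + c ≤ ∑ a, (d a + 1) + 2) :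
    -- the points of degree at most `ν` over the fields generated by finite sets over the algebraic
    -- closure of `k`
    (2 ≤ c → ∀ T : Finset K, {p : ℙ K (Fin (n + 1) → K) | ∃ (x : Fin (n + 1) → K) (hx : x ≠ 0),
      p = Projectivization.mk K x hx ∧ (∀ f ∈ V, aeval x f = 0) ∧ (∀ a, eval x (F a) = 0) ∧
      ∃ U : IntermediateField (IntermediateField.adjoin (algebraicClosure k K) (T : Set K)) K,
        FiniteDimensional (IntermediateField.adjoin (algebraicClosure k K) (T : Set K)) U ∧
        Module.finrank (IntermediateField.adjoin (algebraicClosure k K) (T : Set K)) U ≤ ν ∧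
        ∀ i, x i ∈ U}.Finite) ∧
    -- the curves
    ∀ (L M : Type) [Field L] [Algebra K L] [IsFF K L] [Field M] [Algebra L M] [Algebra K M]
      [IsScalarTower K L M] [FiniteDimensional L M] (x : Fin (n + 1) → M),
      Module.finrank L M ≤ ν →
      (∃ i j, x j ≠ 0 ∧ x i / x j ∉ Set.range (algebraMap K M)) →
      (∀ f ∈ V, aeval x (map (algebraMap (algebraicClosure k K) K) f) = 0) →
      (∀ a, aeval x (F a) = 0) →
      (∀ δ : Derivation K L L, δ ≠ 0 → canDeg K L = - ∑ᶠ P : Place K L, P.ord (δ P.surj.choose)) ∧
      c * pht K x ≤ Module.finrank L M * canDeg K L := by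
  classical
  have hac : IsAlgClosed (algebraicClosure k K) := (algebraicClosure.isAlgClosure k K).isAlgClosed
  constructor
  · intro hc T
    obtain ⟨S, hS⟩ : ∃ S : Fin (n + 1) → Set (Fin (n + 1) → K), ∀ l, S l =
      {x : Fin (n + 1) → K | (∃ U : IntermediateField
        (IntermediateField.adjoin (algebraicClosure k K) (T : Set K)) K,
        FiniteDimensional (IntermediateField.adjoin (algebraicClosure k K) (T : Set K)) U ∧
        Module.finrank (IntermediateField.adjoin (algebraicClosure k K) (T : Set K)) U ≤ ν ∧
        ∀ j, x j ∈ U) ∧ x l = 1 ∧
        (∀ f ∈ V, aeval x f = 0) ∧ ∀ a, eval x (F a) = 0} := ⟨_, fun _ => rfl⟩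
    have h1 : ∀ l, (S l).Finite := fun l => by
      rw [hS]
      exact fin_points3' (m := m) (by omega) V hV F hF I0 h0 hgen.algebraicClosure T l
    have hne : (Pi.single 0 1 : Fin (n + 1) → K) ≠ 0 := by
      intro h
      have := congrFun h 0
      rw [Pi.single_eq_same] at this
      exact one_ne_zero this
    obtain ⟨g, hg⟩ : ∃ g : (Fin (n + 1) → K) → ℙ K (Fin (n + 1) → K), ∀ x, g x =
      if hx : x ≠ 0 then Projectivization.mk K x hx else Projectivization.mk K _ hne :=
      ⟨_, fun _ => rfl⟩
    refine (Set.finite_iUnion fun l => (h1 l).image g).subset ?_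
    rintro p ⟨x, hx, rfl, hxV, hxF, U, hUf, hU, hxU⟩
    obtain ⟨l, hl⟩ := Function.ne_iff.1 hx
    have hl' : x l ≠ 0 := hl
    obtain ⟨x', hx'⟩ : ∃ x' : Fin (n + 1) → K, x' = (x l)⁻¹ • x := ⟨_, rfl⟩
    have hxl : x' l = 1 := by rw [hx', Pi.smul_apply, smul_eq_mul, inv_mul_cancel₀ hl']
    have hx0 : x' ≠ 0 := by
      rintro h
      rw [h] at hxl
      exact zero_ne_one hxl
    rw [Set.mem_iUnion]
    refine ⟨l, x', ?_, ?_⟩
    · rw [hS]
      refine ⟨⟨U, hUf, hU, fun j => ?_⟩, hxl, fun f hf => ?_, fun a => ?_⟩
      · rw [hx', Pi.smul_apply, smul_eq_mul]
        exact mul_mem (inv_mem (hxU l)) (hxU j)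
      · obtain ⟨e, he⟩ := hVh f hf
        rw [hx', Pool.Agent.TH145.MG.aeval_smul he, hxV f hf, mul_zero]
      · rw [hx', Pool.Agent.TH145.GH.eval_smul_hom (hF a), hxF a, mul_zero]
    · rw [hg, dif_pos hx0, Projectivization.mk_eq_mk_iff']
      exact ⟨(x l)⁻¹, hx'.symm⟩
  · intro L M _ _ _ _ _ _ _ _ x hν hx hxV hxF
    refine ⟨fun δ hδ => canDeg_eq hδ, ?_⟩
    have h1 := curve_bd (ν := ν) V hVh hV F hF I0 h0 hgen.algebraicClosure hν x hx hxV hxF
    have hFM : IsFF K M := isFF_of_finite (F := L)
    have hpht : 0 ≤ pht K x := by
      obtain ⟨i, j, hj, -⟩ := hx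
      exact (hgt_nonneg _).trans (Pool.Agent.W603.CX.hgt_le_pht (k := K) x hj hj)
    refine le_trans (mul_le_mul_of_nonneg_right ?_ hpht) h1
    have h2 : ((2 * m + 2 * ν + c : ℕ) : ℤ) ≤ ((∑ a, (d a + 1) + 2 : ℕ) : ℤ) := Int.ofNat_le.2 hd
    push_cast at h2 ⊢
    linarith

end Pool.Agent.Results.MP_c7af3c_ag.BoundedDegreePoints
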