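import Pool.Agent.Helper53K9.CC.Main

/-!
MP_c7af3c_ag, Q1: generic cyclic covers, and more generally fibre products of cyclic covers of
projective varieties with generic branch divisors, have both properties of the question.

Let `K` be an algebraically closed field of characteristic `0`, and let `k` be a field contained in
`K`, with algebraic closure `k'` in `K`. Let `V` be a closed subset of projective space, defined
over `k'`, of dimension at most `m`, and let `F_a`, `a ∈ A`, be finitely many forms of degrees `d_a`,
generic over `k`: the ratios of the coefficients of each form `F_a` to one of them are, for all forms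
together, algebraically independent over `k`. Let `C` be a subset of `A`, and for `a` not in `C` let
`d_a = q_a s_a`. Let `X` be the closed subset of the weighted projective space with coordinates `x_i`
of weight one and `z_a` of weight `s_a`, given by the equations of `V`, by `F_a (x) = 0` for `a` in
`C`, and by `z_a ^ q_a = F_a (x)` for `a` not in `C` (we put `z_a = 0` for `a` in `C`). This is a
fibre product of cyclic covers of degrees `q_a`, branched over the divisors `F_a = 0`, of the
intersection of `V` with the hypersurfaces `F_a = 0`, `a ∈ C`. The map from `X` to the projective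
space is finite, so the points of `X` have representatives with `x_l = 1` for some `l`.
Suppose that `∑_{a ∈ C} (d_a + 1) + ∑_{a ∉ C} (1 - 1 / q_a) d_a ≥ 2 m + 2`. Then:

* `X` has only finitely many points over each field generated by finitely many elements of `K`, and
  even over each field generated over `k'` by finitely many elements of `K` (so `X` and its closed
  subvarieties are arithmetically hyperbolic);
* for each nonconstant morphism `f` from a smooth projective curve of genus `g` over `K` to `X`,
  `(∑_{a ∈ C} (d_a + 1) + ∑_{a ∉ C} (1 - 1 / q_a) d_a - 2 m) deg f ≤ 2 g - 2` (so `X` and its closed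
  subvarieties are algebraically hyperbolic, hence groupless).

The curve is given by its function field `L`, and the morphism by its weighted homogeneous
coordinates `x`, `z`; it is constant if the ratios of the `x_i` are constants. For a point `P` of the
curve (a normalised discrete valuation of `L`, trivial on `K`), `pord P x` is the minimum of the
orders at `P` of the nonzero coordinates `x_i`; `pht K x` is minus the sum of these numbers, the
degree of the composition of `f` with the finite map to the projective space. The number
`canDeg K L` is `2 g - 2`: it is minus the sum over the points `P` of the orders of `δ (t_P)`, where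
`t_P` is a uniformizer at `P`, for any nonzero derivation `δ` of `L` over `K`.
-/

set_option autoImplicit false

namespace Pool.Agent.Results.MP_c7af3c_ag.GenericCyclicCovers

open MvPolynomial FF Pool.Agent.W603.LV Pool.Agent.W603.PV Pool.Agent.TH145.MG
  Pool.Agent.Helper53K9.CC

theorem result {k K : Type} [Field k] [Field K] [IsAlgClosed K] [CharZero K] [Algebra k K]
    {n m : ℕ}
    -- a closed subset of projective space, of dimension at most `m`
    (V : Set (MvPolynomial (Fin (n + 1)) (algebraicClosure k K)))
    (hVh : ∀ f ∈ V, ∃ e, f.IsHomogeneous e) (hV : DimLE (algebraicClosure k K) V m)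
    -- forms of degrees `d a`, and `q a` the degrees of the covers
    {A : Type} [Fintype A] [DecidableEq A] (C : Finset A) (d q s : A → ℕ)
    (hq1 : ∀ a, a ∉ C → 1 ≤ q a) (hqs : ∀ a, a ∉ C → d a = q a * s a)
    (hd : 2 * m + 2 + ∑ a ∈ Cᶜ, s a ≤ ∑ a, d a + C.card)
    (F : A → MvPolynomial (Fin (n + 1)) K) (hF : ∀ a, (F a).IsHomogeneous (d a))
    -- the ratios of the coefficients of the forms are algebraically independent over `k`
    (I0 : A → Fin (n + 1) →₀ ℕ) (h0 : ∀ a, (F a).coeff (I0 a) ≠ 0)
    (hgen : AlgebraicIndependent k
      fun p : (a : A) × {I : Fin (n + 1) →₀ ℕ // I.degree = d a ∧ I ≠ I0 a} =>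
        (F p.1).coeff p.2.1 / (F p.1).coeff (I0 p.1)) :
    -- the points over the fields generated by finite sets over the algebraic closure of `k`
    (∀ (T : Finset K) (l : Fin (n + 1)), {p : (Fin (n + 1) → K) × (A → K) | p.1 l = 1 ∧
      (∀ i, p.1 i ∈ IntermediateField.adjoin (algebraicClosure k K) (T : Set K)) ∧
      (∀ a, p.2 a ∈ IntermediateField.adjoin (algebraicClosure k K) (T : Set K)) ∧
      OnCover (map (algebraMap (algebraicClosure k K) K) '' V) F q C p.1 p.2}.Finite) ∧
    -- the curves
    ∀ (L : Type) [Field L] [Algebra K L] [IsFF K L] (x : Fin (n + 1) → L) (z : A → L),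
      (∃ i j, x j ≠ 0 ∧ x i / x j ∉ Set.range (algebraMap K L)) →
      OnCover (map (algebraMap (algebraicClosure k K) K) '' V) F q C x z →
      (∀ δ : Derivation K L L, δ ≠ 0 → canDeg K L = - ∑ᶠ P : Place K L, P.ord (δ P.surj.choose)) ∧
      (((∑ a, d a : ℕ) : ℤ) + C.card - (∑ a ∈ Cᶜ, s a : ℕ) - 2 * m) * pht K x ≤ canDeg K L := by
  classical
  have hc : Cᶜ = Finset.univ.filter (fun a => a ∉ C) := by
    ext a
    simp
  rw [hc] at hd ⊢
  refine ⟨fun T l => ?_, fun L _ _ _ x z hx h => ⟨fun δ hδ => canDeg_eq hδ, ?_⟩⟩
  · refine fin_cover (m := m) (s := s) C hq1 hqs ?_ V hV F hF I0 h0 hgen T l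
    convert hd
  · have h1 := curve_cover (m := m) (s := s) C hq1 hqs V hVh hV F hF I0 h0 hgen x z hx h
    convert h1

end Pool.Agent.Results.MP_c7af3c_ag.GenericCyclicCovers
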