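import Pool.Agent.Helper21K9.UV.Main2
import Pool.Agent.Helper21K9.UV.Main3

/-!
MP_c7af3c_ag, Q1 (Lang: a projective variety is groupless if and only if it is arithmetically
hyperbolic): the generic hypersurfaces, of high degree, that contain a given closed subset `X` of
projective space are hyperbolic outside `X`, in the arithmetic and in the algebraic sense; they
have the properties of the question if and only if `X` has them.

Let `K` be an algebraically closed field of characteristic `0`, and let `k` be a field contained in
`K`, with algebraic closure `k'` in `K`. Let `V` be a closed subset of projective space, defined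
over `k'`, of dimension at most `m`. For `c` in a finite set `C` let `X_c` be the closed subset given
by finitely many forms `G_cj` over `k'` of degrees `e_cj`; it is arbitrary, with arbitrary
equations. Let `D_c` be a degree, let `P_cj` be generic forms of degrees `d_cj = D_c - e_cj` (all their
coefficients, for all `c` and `j`, are algebraically independent over `k`), and let
`F_c = ∑_j P_cj G_cj`, a generic form of degree `D_c` in the ideal generated by the `G_cj`. Let `H` be the
intersection of `V` with the hypersurfaces `F_c = 0`, and let `S = ∑_c (δ_c + 1)`, where `δ_c` is at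
most the minimum of the `d_cj`. Then:

(1) If `S ≥ 2 m + 2 ν`, then over each field `k'(T)` generated by a finite set `T` over `k'` there are
    only finitely many points of `H` of degree at most `ν` which do not lie on any `X_c`.
(2) Let `B` be a smooth projective curve of genus `g` over `K`, let `B'` be a smooth projective
    curve with a finite morphism to `B` of degree `ν`, and let `f` be a nonconstant morphism from
    `B'` to `H` with image not contained in any `X_c`. Then
    `(S - 2 m - 2 ν + 2) deg f ≤ ν (2 g - 2)`; in particular `(S - 2 m) deg f ≤ 2 g - 2` for the
    morphisms from `B`.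
(3) Let `D_c > e_cj` for all `j`, and let `r` be at least the dimension of `X_c`. Then the singular
    points of the hypersurface `F_c = 0` are points of `X_c` at which the Jacobian matrix of the
    forms `G_cj` has rank at most `r`. (So the hypersurface is smooth if `X_c` is smooth of pure
    dimension `r`, with `2 r < n`, and is defined by the `G_cj` as a scheme.)
(4) Let `S ≥ 2 m + 2 ν` and `ν ≥ 1`. Then `H` has one of the following properties if and only if each
    of the closed subsets `H ∩ X_c` has it:
    * `AlgHyp`: algebraically hyperbolic, that is, for some `b` the degree of every morphism from a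
      smooth projective curve of genus `g` is at most `b max (2 g - 2, 0)`;
    * `Bounded`: for each curve these degrees are bounded;
    * `GenusOne`: the morphisms from curves of genus at most one are constant;
    * for each finite subset `T` of `K` there are only finitely many points with homogeneous
      coordinates in the ring generated by `T` that generate the unit ideal of this ring (this is
      arithmetic hyperbolicity: a finitely generated ring in `K` is contained in a normal one with
      trivial Picard group);
    * for each finite set `T` there are only finitely many points over `k'(T)`, or only finitely many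
      points of degree at most `ν` over `k'(T)`.

For example, let `V` be the projective space, so `m = n`, and let `C` have one element. So let `X` be
a closed subset of projective space, given by forms over `k'` of degree at most `e`, and let `H` be
the generic hypersurface of degree `D ≥ e + 2 n + 1` through `X`. By (1), (2) and (4), `H` is
arithmetically hyperbolic if and only if `X` is. It is groupless if and only if `X` is: by (2), a
morphism from an abelian variety to `H` is constant or has image in `X`, since otherwise the
multiplications by the natural numbers would give morphisms of unbounded degree from a curve in the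
abelian variety to `H` with images not in `X`. Therefore, the conjecture of Lang holds for `H` if and
only if it holds for `X` (as a variety over `K`). It holds, for example, if `X` is finite (here `H` may
have arbitrary given singularities, for instance points of given multiplicities), if the components
of `X` are curves, or linear spaces, or closed subvarieties of abelian varieties (Faltings). The
starting results on generic complete intersections and on their points of bounded degree are the
case that all `G_cj` are `1` and the `X_c` are empty.

Every smooth projective variety `X` is, in a projective space of dimension `n > 2 dim X`, given as a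
scheme by forms of one degree `e`, and so by (3) the hypersurfaces `H` are smooth. So smooth
hypersurfaces are universal for the question: if groupless smooth hypersurfaces are arithmetically
hyperbolic, then the same holds for all smooth projective varieties (groupless varieties stay
groupless over larger fields).

The curve is given by its function field `L` (or `M`), the morphism by its homogeneous coordinates
`x`. For a point `P` of the curve (a normalised discrete valuation, trivial on `K`), `pord P x` is the
minimum of the orders at `P` of the nonzero coordinates; `pht K x` is minus the sum of these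
numbers, the degree of the morphism. The number `canDeg K L` is `2 g - 2`: it is minus the sum over
the points `P` of the orders of `δ (t_P)`, where `t_P` is a uniformizer at `P`, for any nonzero
derivation `δ` of `L` over `K`. The condition `DimLE` says that the ratios of the homogeneous
coordinates of the points of the closed set over all extension fields generate extensions of
transcendence degree at most the given bound.
-/

set_option autoImplicit false

namespace Pool.Agent.Results.MP_c7af3c_ag.HypersurfacesThrough

open MvPolynomial FF Pool.Agent.W603.LV Pool.Agent.W603.PV Pool.Agent.TH145.MG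
  LinearAlgebra.Projectivization

section defs

variable {K : Type} [Field K] {n : ℕ}

/-- The vector `f` is the vector of homogeneous coordinates of a morphism from the smooth projective
curve with function field `L` to the closed subset of projective space given by the forms in `S`. -/
def IsMap (S : Set (MvPolynomial (Fin (n + 1)) K)) {L : Type} [Field L] [Algebra K L]
    (f : Fin (n + 1) → L) : Prop :=
  f ≠ 0 ∧ ∀ F ∈ S, aeval f F = 0

/-- The degrees of the morphisms from curves of genus `g` are at most `B max (2 g - 2, 0)`. -/
def AlgHyp (S : Set (MvPolynomial (Fin (n + 1)) K)) : Prop :=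
  ∃ B : ℕ, ∀ (L : Type) [Field L] [Algebra K L] [IsFF K L] (f : Fin (n + 1) → L),
    IsMap S f → pht K f ≤ B * max (canDeg K L) 0

/-- The degrees of the morphisms from each curve are bounded. -/
def Bounded (S : Set (MvPolynomial (Fin (n + 1)) K)) : Prop :=
  ∀ (L : Type) [Field L] [Algebra K L] [IsFF K L], ∃ B : ℤ, ∀ f : Fin (n + 1) → L,
    IsMap S f → pht K f ≤ B

/-- The morphisms from the curves of genus at most one are constant. -/
def GenusOne (S : Set (MvPolynomial (Fin (n + 1)) K)) : Prop :=
  ∀ (L : Type) [Field L] [Algebra K L] [IsFF K L], canDeg K L ≤ 0 → ∀ f : Fin (n + 1) → L,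
    IsMap S f → ∃ (c : L) (x : Fin (n + 1) → K), ∀ i, f i = c * algebraMap K L (x i)

/-- The points with homogeneous coordinates in the ring generated by the set `T` which generate the
unit ideal of this ring. -/
def RingPts (S : Set (MvPolynomial (Fin (n + 1)) K)) (T : Finset K) :
    Set (ℙ K (Fin (n + 1) → K)) :=
  {p | ∃ (x : Fin (n + 1) → K) (hx : x ≠ 0), p = Projectivization.mk K x hx ∧
    (∀ F ∈ S, eval x F = 0) ∧ (∀ i, x i ∈ Subring.closure (T : Set K)) ∧
    ∃ c : Fin (n + 1) → K, (∀ i, c i ∈ Subring.closure (T : Set K)) ∧ ∑ i, c i * x i = 1}

/-- The points of degree at most `ν` over the field `E`: the points with homogeneous coordinates in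
some extension of `E` in `K` of degree at most `ν`. -/
def DegPts {k : Type} [Field k] [Algebra k K] (S : Set (MvPolynomial (Fin (n + 1)) K))
    (E : IntermediateField k K) (ν : ℕ) : Set (ℙ K (Fin (n + 1) → K)) :=
  {p | ∃ (x : Fin (n + 1) → K) (hx : x ≠ 0), p = Projectivization.mk K x hx ∧
    (∀ F ∈ S, eval x F = 0) ∧ ∃ U : IntermediateField E K, FiniteDimensional E U ∧
      Module.finrank E U ≤ ν ∧ ∀ i, x i ∈ U}

/-- The equations of the intersection `H` of `V` with the hypersurfaces `F c = 0`. -/
def eqH {k : Type} [Field k] [Algebra k K]
    (V : Set (MvPolynomial (Fin (n + 1)) (algebraicClosure k K))) {C : Type}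
    (F : C → MvPolynomial (Fin (n + 1)) K) : Set (MvPolynomial (Fin (n + 1)) K) :=
  map (algebraMap (algebraicClosure k K) K) '' V ∪ Set.range F

/-- The equations of the intersection of `H` with the closed set given by the forms `G j`. -/
def eqX {k : Type} [Field k] [Algebra k K]
    (V : Set (MvPolynomial (Fin (n + 1)) (algebraicClosure k K))) {C : Type}
    (F : C → MvPolynomial (Fin (n + 1)) K) {J : Type}
    (G : J → MvPolynomial (Fin (n + 1)) (algebraicClosure k K)) :
    Set (MvPolynomial (Fin (n + 1)) K) :=
  eqH V F ∪ Set.range fun j => map (algebraMap (algebraicClosure k K) K) (G j)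

end defs

theorem result {k K : Type} [Field k] [Field K] [IsAlgClosed K] [CharZero K] [Algebra k K]
    {n m : ℕ}
    -- a closed subset of projective space, of dimension at most `m`
    (V : Set (MvPolynomial (Fin (n + 1)) (algebraicClosure k K)))
    (hVh : ∀ f ∈ V, ∃ e, f.IsHomogeneous e) (hV : DimLE (algebraicClosure k K) V m)
    -- closed subsets `X_c`, given by forms `G c j` of degrees `e c j`
    {C : Type} [Fintype C] {J : C → Type} [∀ c, Fintype (J c)] (e : ∀ c, J c → ℕ)
    (G : ∀ c, J c → MvPolynomial (Fin (n + 1)) (algebraicClosure k K))
    (hG : ∀ c j, (G c j).IsHomogeneous (e c j))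
    -- generic forms `P c j` of degrees `d c j`
    (d : ∀ c, J c → ℕ) (P : ∀ c, J c → MvPolynomial (Fin (n + 1)) K)
    (hP : ∀ c j, (P c j).IsHomogeneous (d c j))
    (hgen : AlgebraicIndependent k
      fun p : (a : Σ c, J c) × {I : Fin (n + 1) →₀ ℕ // I.degree = d a.1 a.2} =>
        (P p.1.1 p.1.2).coeff p.2.1)
    -- the forms `F c` of degrees `D c` in the ideals generated by the `G c j`
    (D : C → ℕ) (hD : ∀ c j, d c j + e c j = D c) (F : C → MvPolynomial (Fin (n + 1)) K)
    (hF : ∀ c, F c = ∑ j, P c j * map (algebraMap (algebraicClosure k K) K) (G c j))
    -- lower bounds for the degrees of the `P c j`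
    (δ : C → ℕ) (hδ : ∀ c j, δ c ≤ d c j) :
    -- the points of degree at most `ν` outside the `X_c`
    (∀ ν : ℕ, 2 * m + 2 * ν ≤ ∑ c, (δ c + 1) → ∀ T : Finset K,
      (DegPts (eqH V F) (IntermediateField.adjoin (algebraicClosure k K) (T : Set K)) ν \
        ⋃ c, DegPts (eqX V F (G c))
          (IntermediateField.adjoin (algebraicClosure k K) (T : Set K)) ν).Finite) ∧
    -- the curves outside the `X_c`
    (∀ (L M : Type) [Field L] [Algebra K L] [IsFF K L] [Field M] [Algebra L M] [Algebra K M]
      [IsScalarTower K L M] [FiniteDimensional L M] (x : Fin (n + 1) → M),
      (∃ i j, x j ≠ 0 ∧ x i / x j ∉ Set.range (algebraMap K M)) →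
      IsMap (eqH V F) x → (∀ c, ¬ IsMap (eqX V F (G c)) x) →
      (∀ η : Derivation K L L, η ≠ 0 → canDeg K L = - ∑ᶠ p : Place K L, p.ord (η p.surj.choose)) ∧
      ((∑ c, (δ c + 1) : ℕ) - 2 * m - 2 * (Module.finrank L M : ℤ) + 2) * pht K x ≤
        Module.finrank L M * canDeg K L) ∧
    -- the singular points of `F c = 0`
    (∀ (c : C) (r : ℕ), (∀ j, 1 ≤ d c j) → DimLE (algebraicClosure k K) (Set.range (G c)) r →
      ∀ x : Fin (n + 1) → K, x ≠ 0 → (∀ l, eval x (pderiv l (F c)) = 0) →
        (∀ j, aeval x (G c j) = 0) ∧
        (Matrix.of fun (j : J c) (l : Fin (n + 1)) => aeval x (pderiv l (G c j))).rank ≤ r) ∧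
    -- the equivalences
    ∀ ν : ℕ, 1 ≤ ν → 2 * m + 2 * ν ≤ ∑ c, (δ c + 1) →
      (AlgHyp (eqH V F) ↔ ∀ c, AlgHyp (eqX V F (G c))) ∧
      (Bounded (eqH V F) ↔ ∀ c, Bounded (eqX V F (G c))) ∧
      (GenusOne (eqH V F) ↔ ∀ c, GenusOne (eqX V F (G c))) ∧
      ((∀ T : Finset K, (RingPts (eqH V F) T).Finite) ↔
        ∀ c, ∀ T : Finset K, (RingPts (eqX V F (G c)) T).Finite) ∧
      ((∀ T : Finset K, (DegPts (eqH V F)
          (IntermediateField.adjoin (algebraicClosure k K) (T : Set K)) ν).Finite) ↔
        ∀ c, ∀ T : Finset K, (DegPts (eqX V F (G c))
          (IntermediateField.adjoin (algebraicClosure k K) (T : Set K)) ν).Finite) :=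
  ⟨fun ν hd T => Pool.Agent.Helper21K9.UV.main_diff hVh hV hG hP hgen hD hF hδ hd T,
    fun L M _ _ _ _ _ _ _ _ x hx hxH hxX => ⟨fun η hη => canDeg_eq hη,
      Pool.Agent.Helper21K9.UV.main_curve_nu hVh hV hG hP hgen hD hF hδ L M x le_rfl hx hxH hxX⟩,
    fun c r hd1 hr x hx h0 =>
      Pool.Agent.Helper21K9.UV.main_sing hG hP hgen hD hF c hd1 hr x hx h0,
    fun ν hν hd => Pool.Agent.Helper21K9.UV.main_equiv hVh hV hG hP hgen hD hF hδ hν hd⟩

end Pool.Agent.Results.MP_c7af3c_ag.HypersurfacesThrough
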